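import Pool.Agent.Helper76.TX.StU

/-!
# Project TU, module NF: nilpotency for symbols modulo 2

`Lft` with `M = 1` lifts the symbol to an integral one up to a constant, `Nil` gives the
divisibility of the values by `2`, and `ev` commutes with reduction and does not see constants.
-/

set_option autoImplicit false

namespace Pool.Agent.Helper5.TX

open Pool.Agent.Helper76.TX Pool.Agent.Helper14.CV Pool.Agent.Helper28.WK Pool.Agent.Helper78.TW

/-- The Hecke operators commute with additive maps. -/
private theorem Tl_map {A B : Type} [AddCommGroup A] [AddCommGroup B] (φ : A →+ B) (l : ℕ)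
    (m : ℤ) (G : ℤ → ℤ → A) :
    Tl l m (fun p q => φ (G p q)) = fun p q => φ (Tl l m G p q) := by
  funext p q
  simp only [Tl, map_add, map_sum]

private theorem Tl_iter_map {A B : Type} [AddCommGroup A] [AddCommGroup B] (φ : A →+ B) (l : ℕ)
    (m : ℤ) (i : ℕ) (G : ℤ → ℤ → A) :
    (Tl l m)^[i] (fun p q => φ (G p q)) = fun p q => φ ((Tl l m)^[i] G p q) := by
  induction i generalizing G with
  | zero => rfl
  | succ i ih => rw [Function.iterate_succ_apply, Tl_map, ih, Function.iterate_succ_apply]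

private theorem ev_map {A B : Type} [AddCommGroup A] [AddCommGroup B] (φ : A →+ B) (m : ℤ)
    (G : ℤ → ℤ → A) (i j : ℕ) : ev m (fun p q => φ (G p q)) i j = φ (ev m G i j) := by
  unfold ev
  rw [Tl_iter_map φ 5, Tl_iter_map φ 3, map_sub]

/-- NF. -/
theorem hNf : StNf := by
  intro hL hN n g hn hg i j hij
  obtain ⟨G, hG, hc⟩ := hL n 1 g (by omega) hg
  have h1 : (2 : ℤ) ∣ ev 1 G i j := hN n hn G hG i j hij
  have h2 : ev 1 (fun p q => ((G p q : ℤ) : ZMod 2)) i j = ((ev 1 G i j : ℤ) : ZMod 2) :=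
    ev_map (Int.castAddHom (ZMod 2)) 1 G i j
  have h3 : ev 1 g i j = ev 1 (fun p q => ((G p q : ℤ) : ZMod 2)) i j :=
    (ev_congr 1 hc i j).symm
  rw [h3, h2]
  exact (ZMod.intCast_zmod_eq_zero_iff_dvd (ev 1 G i j) 2).2 (by exact_mod_cast h1)

end Pool.Agent.Helper5.TX
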